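import Mathlib

namespace Pool.Agent.Results.MP_4c9b54_co.Top

open Finset

/-- Number of negative circles of length 4 in the signed `K_{r,s}`; `σ i j = 1` marks a negative
edge, and a 4-circle is the edge set `A × B` for a pair `A` of rows and a pair `B` of columns. -/
def c4 {r s : ℕ} (σ : Fin r → Fin s → ZMod 2) : ℕ :=
  (((univ.powersetCard 2) ×ˢ (univ.powersetCard 2)).filter
    (fun p : Finset (Fin r) × Finset (Fin s) => ∑ i ∈ p.1, ∑ j ∈ p.2, σ i j = 1)).card

lemma pairs {α : Type} [Fintype α] [DecidableEq α] (P : Finset α → Prop) [DecidablePred P]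
    (x y : α) (hxy : x ≠ y) (h0 : P {x, y})
    (ht : ∀ z, z ≠ x → z ≠ y → P {x, z} ∨ P {y, z}) :
    Fintype.card α - 1 ≤ ((univ.powersetCard 2).filter P).card := by
  rw [← card_univ, ← card_erase_of_mem (mem_univ x)]
  apply card_le_card_of_injOn (fun z => if P {x, z} then {x, z} else {y, z})
  · intro z hz
    have hzx : z ≠ x := (mem_erase.1 (mem_coe.1 hz)).1
    refine mem_coe.2 (mem_filter.2 ?_)
    by_cases h : P {x, z}
    · simp only [if_pos h]
      exact ⟨mem_powersetCard.2 ⟨subset_univ _, card_pair hzx.symm⟩, h⟩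
    · have hzy : z ≠ y := by rintro rfl; exact h h0
      simp only [if_neg h]
      exact ⟨mem_powersetCard.2 ⟨subset_univ _, card_pair hzy.symm⟩, (ht z hzx hzy).resolve_left h⟩
  · intro z hz w hw hzw
    have hzx : z ≠ x := (mem_erase.1 (mem_coe.1 hz)).1
    have hwx : w ≠ x := (mem_erase.1 (mem_coe.1 hw)).1
    by_cases h : P {x, z} <;> by_cases h' : P {x, w} <;>
      simp only [h, h', if_true, if_false] at hzw
    · have : z ∈ ({x, w} : Finset α) := hzw ▸ (by simp)
      simpa [hzx] using this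
    · have : x ∈ ({y, w} : Finset α) := hzw ▸ (by simp)
      simp [hxy, hwx.symm] at this
    · have : x ∈ ({y, z} : Finset α) := hzw ▸ (by simp)
      simp [hxy, hzx.symm] at this
    · have hzy : z ≠ y := by rintro rfl; exact h h0
      have : z ∈ ({y, w} : Finset α) := hzw ▸ (by simp)
      simpa [hzy] using this

lemma tri {α : Type} [DecidableEq α] (f : α → ZMod 2) (x y z : α) (hxy : x ≠ y) (hzx : z ≠ x)
    (hzy : z ≠ y) (h : ∑ i ∈ ({x, y} : Finset α), f i = 1) :
    ∑ i ∈ ({x, z} : Finset α), f i = 1 ∨ ∑ i ∈ ({y, z} : Finset α), f i = 1 := by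
  rw [sum_pair hxy] at h
  rw [sum_pair hzx.symm, sum_pair hzy.symm]
  have : ∀ a b c : ZMod 2, a + b = 1 → a + c = 1 ∨ b + c = 1 := by decide
  exact this _ _ _ h

lemma gap (r s : ℕ) (σ : Fin r → Fin s → ZMod 2) (h : c4 σ ≠ 0) :
    (r - 1) * (s - 1) ≤ c4 σ := by
  classical
  obtain ⟨⟨A, B⟩, hp⟩ := card_ne_zero.1 h
  obtain ⟨hAB, hs⟩ := mem_filter.1 hp
  obtain ⟨hA, hB⟩ := mem_product.1 hAB
  obtain ⟨x, y, hxy, rfl⟩ := card_eq_two.1 (mem_powersetCard.1 hA).2
  let P : Finset (Fin r) → Prop := fun A' =>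
    ∃ B' ∈ (univ : Finset (Fin s)).powersetCard 2, ∑ i ∈ A', ∑ j ∈ B', σ i j = 1
  have h1 := pairs P x y hxy ⟨B, hB, hs⟩ (fun z hzx hzy => by
    rcases tri (fun i => ∑ j ∈ B, σ i j) x y z hxy hzx hzy hs with h | h
    · exact Or.inl ⟨B, hB, h⟩
    · exact Or.inr ⟨B, hB, h⟩)
  rw [Fintype.card_fin] at h1
  have h2 : ∀ A' ∈ (univ.powersetCard 2).filter P, s - 1 ≤
      ((univ.powersetCard 2).filter (fun B' : Finset (Fin s) =>
        ∑ i ∈ A', ∑ j ∈ B', σ i j = 1)).card := by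
    intro A' hA'
    obtain ⟨B', hB', hs'⟩ := (mem_filter.1 hA').2
    obtain ⟨u, v, huv, rfl⟩ := card_eq_two.1 (mem_powersetCard.1 hB').2
    have := pairs (fun B' : Finset (Fin s) => ∑ i ∈ A', ∑ j ∈ B', σ i j = 1) u v huv hs'
      (fun z hzu hzv => by
        rw [sum_comm] at hs'
        have := tri (fun j => ∑ i ∈ A', σ i j) u v z huv hzu hzv hs'
        rw [sum_comm (s := A'), sum_comm (s := A')]
        exact this)
    rwa [Fintype.card_fin] at this
  have h3 : c4 σ = ∑ A' ∈ (univ : Finset (Fin r)).powersetCard 2,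
      ((univ.powersetCard 2).filter (fun B' : Finset (Fin s) =>
        ∑ i ∈ A', ∑ j ∈ B', σ i j = 1)).card := by
    unfold c4
    rw [card_filter, sum_product]
    simp only [card_filter]
  rw [h3]
  calc (r - 1) * (s - 1) ≤ ((univ.powersetCard 2).filter P).card * (s - 1) :=
        Nat.mul_le_mul_right _ h1
    _ ≤ ∑ A' ∈ (univ.powersetCard 2).filter P, ((univ.powersetCard 2).filter
        (fun B' : Finset (Fin s) => ∑ i ∈ A', ∑ j ∈ B', σ i j = 1)).card := by
        rw [← smul_eq_mul]; exact card_nsmul_le_sum _ _ _ h2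
    _ ≤ _ := sum_le_sum_of_subset (filter_subset _ _)

lemma cnt {α : Type} [Fintype α] [DecidableEq α] (f : α → ZMod 2) :
    ((univ.powersetCard 2).filter (fun A : Finset α => ∑ i ∈ A, f i = 1)).card =
      (univ.filter (fun i => f i = 1)).card * (univ.filter (fun i => ¬ f i = 1)).card := by
  rw [← card_product]
  symm
  have k1 : ∀ a b : ZMod 2, a = 1 → ¬ b = 1 → a + b = 1 := by decide
  have k2 : ∀ a b : ZMod 2, a + b = 1 → (a = 1 ∧ ¬ b = 1) ∨ (b = 1 ∧ ¬ a = 1) := by decide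
  apply card_bij (fun p _ => ({p.1, p.2} : Finset α))
  · rintro ⟨x, y⟩ hp
    have hx : f x = 1 := (mem_filter.1 (mem_product.1 hp).1).2
    have hy : ¬ f y = 1 := (mem_filter.1 (mem_product.1 hp).2).2
    have hxy : x ≠ y := by rintro rfl; exact hy hx
    refine mem_filter.2 ⟨mem_powersetCard.2 ⟨subset_univ _, card_pair hxy⟩, ?_⟩
    rw [sum_pair hxy]; exact k1 _ _ hx hy
  · rintro ⟨x, y⟩ hp ⟨z, w⟩ hq he
    have hx : f x = 1 := (mem_filter.1 (mem_product.1 hp).1).2
    have hy : ¬ f y = 1 := (mem_filter.1 (mem_product.1 hp).2).2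
    have hz : f z = 1 := (mem_filter.1 (mem_product.1 hq).1).2
    have hw : ¬ f w = 1 := (mem_filter.1 (mem_product.1 hq).2).2
    have h1 : x ∈ ({z, w} : Finset α) := he ▸ (by simp)
    have h2 : y ∈ ({z, w} : Finset α) := he ▸ (by simp)
    rcases mem_insert.1 h1 with h1 | h1
    · rcases mem_insert.1 h2 with h2 | h2
      · exact absurd (h2 ▸ hz) hy
      · rw [h1, mem_singleton.1 h2]
    · exact absurd (mem_singleton.1 h1 ▸ hx) hw
  · intro A hA
    obtain ⟨hA, hs⟩ := mem_filter.1 hA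
    obtain ⟨x, y, hxy, rfl⟩ := card_eq_two.1 (mem_powersetCard.1 hA).2
    rw [sum_pair hxy] at hs
    rcases k2 _ _ hs with ⟨a, b⟩ | ⟨a, b⟩
    · exact ⟨(x, y), by simp [a, b], rfl⟩
    · exact ⟨(y, x), by simp [a, b], pair_comm _ _⟩

lemma top (r s : ℕ) (σ : Fin r → Fin s → ZMod 2) :
    4 * c4 σ ≤ s.choose 2 * r ^ 2 ∧ (4 * c4 σ = s.choose 2 * r ^ 2 ↔
      ∀ u v : Fin s, u ≠ v → 2 * (univ.filter (fun i => σ i u + σ i v = 1)).card = r) := by
  classical
  let d : Finset (Fin s) → ℕ := fun B => (univ.filter (fun i => ∑ j ∈ B, σ i j = 1)).card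
  let e : Finset (Fin s) → ℕ := fun B => (univ.filter (fun i => ¬ ∑ j ∈ B, σ i j = 1)).card
  have hde : ∀ B, d B + e B = r := fun B => by
    have := card_filter_add_card_filter_not (s := (univ : Finset (Fin r)))
      (fun i => ∑ j ∈ B, σ i j = 1)
    rwa [card_univ, Fintype.card_fin] at this
  have h3 : 4 * c4 σ = ∑ B ∈ (univ : Finset (Fin s)).powersetCard 2, 4 * (d B * e B) := by
    rw [← mul_sum]; congr 1
    unfold c4
    rw [card_filter, sum_product_right]
    refine sum_congr rfl fun B _ => ?_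
    rw [← cnt (fun i => ∑ j ∈ B, σ i j), card_filter]
  have h4 : s.choose 2 * r ^ 2 = ∑ _B ∈ (univ : Finset (Fin s)).powersetCard 2, r ^ 2 := by
    simp
  have hle : ∀ B ∈ (univ : Finset (Fin s)).powersetCard 2, 4 * (d B * e B) ≤ r ^ 2 := by
    intro B _; rw [← hde B]; zify; nlinarith [sq_nonneg ((d B : ℤ) - e B)]
  rw [h3, h4]
  refine ⟨sum_le_sum hle, ?_⟩
  rw [sum_eq_sum_iff_of_le hle]
  have hd : ∀ u v : Fin s, u ≠ v →
      d {u, v} = (univ.filter (fun i => σ i u + σ i v = 1)).card := by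
    intro u v huv; simp only [d, sum_pair huv]
  constructor
  · intro h u v huv
    have h1 := h {u, v} (mem_powersetCard.2 ⟨subset_univ _, card_pair huv⟩)
    rw [← hd u v huv]
    have h2 := hde {u, v}
    have h5 : ((d {u, v} : ℤ) - e {u, v}) ^ 2 = 0 := by
      rw [← h2] at h1; zify at h1; linarith
    have := pow_eq_zero_iff (two_ne_zero) |>.1 h5
    omega
  · intro h B hB
    obtain ⟨u, v, huv, rfl⟩ := card_eq_two.1 (mem_powersetCard.1 hB).2
    have h1 := h u v huv
    rw [← hd u v huv] at h1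
    have h2 := hde {u, v}
    have : e {u, v} = d {u, v} := by omega
    rw [this, ← h1]; ring

/-- Upper bound with its equality case. -/
theorem result (r s : ℕ) (σ : Fin r → Fin s → ZMod 2) :
    4 * c4 σ ≤ s.choose 2 * r ^ 2 ∧ (4 * c4 σ = s.choose 2 * r ^ 2 ↔
      ∀ u v : Fin s, u ≠ v → 2 * (univ.filter (fun i => σ i u + σ i v = 1)).card = r) :=
  top r s σ

end Pool.Agent.Results.MP_4c9b54_co.Top
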